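import Mathlib
import Pool.Agent.Y279.PU2

set_option autoImplicit false

namespace Pool.Agent.Results.MP_514f39_an.PermutedExpansions

open Filter Topology

/-- Schauder basis: every vector has exactly one expansion in the given order. -/
def IsSchauderBasis (𝕜 : Type) [RCLike 𝕜] {E : Type} [NormedAddCommGroup E] [NormedSpace 𝕜 E]
    (x : ℕ → E) : Prop :=
  ∀ v : E, ∃! α : ℕ → 𝕜,
    Tendsto (fun N => ∑ i ∈ Finset.range N, α i • x i) atTop (𝓝 v)

/-- Property (U): every vector has exactly one scalar sequence for which some rearrangement of the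
expansion converges to it. -/
def PropertyU (𝕜 : Type) [RCLike 𝕜] {E : Type} [NormedAddCommGroup E] [NormedSpace 𝕜 E]
    (x : ℕ → E) : Prop :=
  ∀ v : E, ∃! α : ℕ → 𝕜, ∃ σ : Equiv.Perm ℕ,
    Tendsto (fun N => ∑ i ∈ Finset.range N, α (σ i) • x (σ i)) atTop (𝓝 v)

/-- Minimality: no vector lies in the closed linear span of the others. -/
def IsMinimalSeq (𝕜 : Type) [RCLike 𝕜] {E : Type} [NormedAddCommGroup E] [NormedSpace 𝕜 E]
    (x : ℕ → E) : Prop :=
  ∀ m : ℕ, x m ∉ closure (Submodule.span 𝕜 (x '' {n | n ≠ m}) : Set E)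

/-- Over either scalar field there are a separable Hilbert space and a minimal sequence in it with
property (U) no permutation of which is a Schauder basis. -/
theorem result (𝕜 : Type) [RCLike 𝕜] :
    ∃ (E : Type) (_ : NormedAddCommGroup E) (_ : InnerProductSpace 𝕜 E) (_ : CompleteSpace E)
      (_ : TopologicalSpace.SeparableSpace E) (x : ℕ → E),
      IsMinimalSeq 𝕜 x ∧ PropertyU 𝕜 x ∧
        ∀ τ : Equiv.Perm ℕ, ¬ IsSchauderBasis 𝕜 (fun n => x (τ n)) := by
  refine ⟨Y279.PU.E 𝕜, inferInstance, inferInstance, inferInstance, inferInstance, Y279.PU.x,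
    fun m => Y279.PU.not_mem_closure m, fun v => ?_, fun τ h => ?_⟩
  · obtain ⟨σ, hσ⟩ := Y279.PU.exists_expansion v
    exact ⟨fun m => Y279.PU.f m v, ⟨σ, hσ⟩, fun β hβ => by
      obtain ⟨π, hπ⟩ := hβ
      exact funext fun m => Y279.PU.coeff_unique v β π hπ m⟩
  · exact Y279.PU.no_basis τ fun v => (h v).exists

end Pool.Agent.Results.MP_514f39_an.PermutedExpansions
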